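import Pool.Agent.SGL.StmtsU

set_option autoImplicit false

/-!
# Squad SGL, row NYA: a lower edge and an edge inside a slice or to the next slice
-/

namespace Pool.Agent.SGL.H72

open Pool.Agent.SGL Pool.Agent.SGE Pool.Agent.SGP Pool.Agent.SGY Pool.Agent.SGD

/-- **NYA**. -/
theorem nya : NyaStmt := by
  intro V a c R s ρ A f G inj H p q r t hA hr ht hcase
  obtain ⟨hp, sp⟩ := H.l p q hA
  have hq := H.r p q hA
  -- common ends
  by_cases e1 : p = r
  · exact com (Or.inl (by rw [e1]))
  by_cases e2 : p = t
  · exact com (Or.inr (Or.inl (by rw [e2])))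
  by_cases e3 : q = r
  · exact com (Or.inr (Or.inr (Or.inl (by rw [e3]))))
  by_cases e4 : q = t
  · exact com (Or.inr (Or.inr (Or.inr (by rw [e4]))))
  -- points above
  have above : ∀ z ∈ R, 0 < s z → 0 < o (f p) (f q) (f z) := by
    intro z hz hs
    rcases hq with hq | ⟨_, hqR, sq, hpq⟩
    · have h := G.ra p hp z hz (by omega)
      rw [hq, o_rot (f p) (f a) (f z)]
      exact h
    · exact G.up p hp q hqR z hz (by omega) hpq (by omega)
  have npr : ρ p ≠ ρ r := fun h => e1 (inj p hp r hr h)
  have npt : ρ p ≠ ρ t := fun h => e2 (inj p hp t ht h)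
  rcases hcase with ⟨hst, hrt, hcons⟩ | hst
  · -- inside a slice
    rcases Nat.eq_zero_or_pos (s r) with h0 | h0
    · have h0t : s t = 0 := by omega
      rcases lt_or_gt_of_ne npr with h | h
      · -- right of p
        rcases hq with hq | ⟨_, hqR, sq, hpq⟩
        · exact same_pos (H.m p q hA r hr h0 h (Or.inl hq))
            (H.m p q hA t ht h0t (lt_trans h hrt) (Or.inl hq))
        · have nqr : ρ q ≠ ρ r := fun h' => e3 (inj q hqR r hr h')
          have nqt : ρ q ≠ ρ t := fun h' => e4 (inj q hqR t ht h')
          have hc := hcons q hqR (by omega)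
          by_cases hqr : ρ q < ρ r
          · exact sepx (G.xx p hp r hr h) (G.xx p hp t ht (lt_trans h hrt))
              (G.xx q hqR r hr hqr) (G.xx q hqR t ht (lt_trans hqr hrt))
          · have hqt : ρ t < ρ q := by
              by_contra hcon
              exact hc ⟨by omega, by omega⟩
            exact same_pos (H.m p q hA r hr h0 h (Or.inr (lt_trans hrt hqt)))
              (H.m p q hA t ht h0t (lt_trans h hrt) (Or.inr hqt))
      · -- left of p
        have hc := hcons p hp (by omega)
        have htp : ρ t < ρ p := by
          by_contra hcon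
          exact hc ⟨h, by omega⟩
        intro hX
        have hX' := xs_swap hX
        have hrq : (f r).1 < (f q).1 ∧ (f t).1 < (f q).1 := by
          rcases hq with hq | ⟨_, hqR, sq, hpq⟩
          · rw [hq]
            exact ⟨G.xa r hr, G.xa t ht⟩
          · exact ⟨G.xx r hr q hqR (lt_trans h hpq), G.xx t ht q hqR (lt_trans htp hpq)⟩
        exact sepx (G.xx r hr p hp h) hrq.1 (G.xx t ht p hp htp) hrq.2 hX'
    · exact same_pos (above r hr h0) (above t ht (by omega))
  · -- to the next slice
    rcases Nat.eq_zero_or_pos (s r) with h0 | h0
    · have ht1 : 0 < s t := by omega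
      rcases lt_or_gt_of_ne npr with h | h
      · -- right of p
        rcases hq with hq | ⟨_, hqR, sq, hpq⟩
        · exact same_pos (H.m p q hA r hr h0 h (Or.inl hq)) (above t ht ht1)
        · have nqr : ρ q ≠ ρ r := fun h' => e3 (inj q hqR r hr h')
          by_cases hqr : ρ q < ρ r
          · intro hX
            have hX' := xs_swap hX
            have a1 : 0 < o (f r) (f t) (f p) := by
              rw [← o_rot (f p) (f r) (f t)]
              exact G.up p hp r hr t ht (by omega) h (by omega)
            have a2 : 0 < o (f r) (f t) (f q) := by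
              rw [← o_rot (f q) (f r) (f t)]
              exact G.up q hqR r hr t ht (by omega) hqr (by omega)
            exact same_pos a1 a2 hX'
          · exact same_pos (H.m p q hA r hr h0 h (Or.inr (by omega))) (above t ht ht1)
      · -- left of p
        intro hX
        have hX' := xs_swap hX
        have a1 : o (f r) (f t) (f p) < 0 := by
          have h1 := G.up r hr p hp t ht (by omega) h (by omega)
          rw [o_swap' (f r) (f t) (f p)]
          linarith
        have a2 : o (f r) (f t) (f q) < 0 := by
          rcases hq with hq | ⟨_, hqR, sq, hpq⟩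
          · have h1 := G.ra r hr t ht (by omega)
            rw [hq, o_swap (f r) (f t) (f a), ← o_rot (f a) (f t) (f r)]
            linarith
          · have h1 := G.up r hr q hqR t ht (by omega) (lt_trans h hpq) (by omega)
            rw [o_swap' (f r) (f t) (f q)]
            linarith
        exact same_neg a1 a2 hX'
    · exact same_pos (above r hr h0) (above t ht (by omega))

end Pool.Agent.SGL.H72
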